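import Mathlib

open Cardinal

namespace Pool.Agent.Results.MP_4ec73f_lc.NumIsoTypes

/-- A Boolean algebra of sets of reals: a family of subsets of the reals that contains the empty
set and the whole line and is closed under (binary, hence finite) unions and complements. -/
structure IsSetAlgebra (B : Set (Set ℝ)) : Prop where
  empty_mem : ∅ ∈ B
  univ_mem : Set.univ ∈ B
  union_mem : ∀ s ∈ B, ∀ t ∈ B, s ∪ t ∈ B
  compl_mem : ∀ s ∈ B, sᶜ ∈ B

/-- Two families of sets of reals are isomorphic if there is a bijection between them that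
preserves unions, intersections and complements. -/
def Isomorphic (B C : Set (Set ℝ)) : Prop :=
  ∃ e : B ≃ C,
    (∀ s t u : B, (u : Set ℝ) = (s : Set ℝ) ∪ (t : Set ℝ) →
      (e u : Set ℝ) = (e s : Set ℝ) ∪ (e t : Set ℝ)) ∧
    (∀ s t u : B, (u : Set ℝ) = (s : Set ℝ) ∩ (t : Set ℝ) →
      (e u : Set ℝ) = (e s : Set ℝ) ∩ (e t : Set ℝ)) ∧
    (∀ s u : B, (u : Set ℝ) = (s : Set ℝ)ᶜ → (e u : Set ℝ) = (e s : Set ℝ)ᶜ)

theorem IsSetAlgebra.inter_mem {B : Set (Set ℝ)} (hB : IsSetAlgebra B) {s t : Set ℝ}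
    (hs : s ∈ B) (ht : t ∈ B) : s ∩ t ∈ B := by
  have h := hB.compl_mem _ (hB.union_mem _ (hB.compl_mem _ hs) _ (hB.compl_mem _ ht))
  rwa [Set.compl_union, compl_compl, compl_compl] at h

theorem Isomorphic.refl (B : Set (Set ℝ)) : Isomorphic B B :=
  ⟨Equiv.refl _, fun _ _ _ h => h, fun _ _ _ h => h, fun _ _ h => h⟩

theorem Isomorphic.symm {B C : Set (Set ℝ)} (hB : IsSetAlgebra B)
    (h : Isomorphic B C) : Isomorphic C B := by
  obtain ⟨e, h1, h2, h3⟩ := h
  refine ⟨e.symm, ?_, ?_, ?_⟩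
  · intro s t u hu
    have hm : (e.symm s : Set ℝ) ∪ (e.symm t : Set ℝ) ∈ B :=
      hB.union_mem _ (e.symm s).2 _ (e.symm t).2
    have h := h1 (e.symm s) (e.symm t) ⟨_, hm⟩ rfl
    rw [e.apply_symm_apply, e.apply_symm_apply, ← hu] at h
    have h' : e ⟨_, hm⟩ = u := Subtype.ext h
    rw [← h', e.symm_apply_apply]
  · intro s t u hu
    have hm : (e.symm s : Set ℝ) ∩ (e.symm t : Set ℝ) ∈ B :=
      hB.inter_mem (e.symm s).2 (e.symm t).2
    have h := h2 (e.symm s) (e.symm t) ⟨_, hm⟩ rfl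
    rw [e.apply_symm_apply, e.apply_symm_apply, ← hu] at h
    have h' : e ⟨_, hm⟩ = u := Subtype.ext h
    rw [← h', e.symm_apply_apply]
  · intro s u hu
    have hm : (e.symm s : Set ℝ)ᶜ ∈ B := hB.compl_mem _ (e.symm s).2
    have h := h3 (e.symm s) ⟨_, hm⟩ rfl
    rw [e.apply_symm_apply, ← hu] at h
    have h' : e ⟨_, hm⟩ = u := Subtype.ext h
    rw [← h', e.symm_apply_apply]

theorem Isomorphic.trans {B C D : Set (Set ℝ)} (h : Isomorphic B C) (h' : Isomorphic C D) :
    Isomorphic B D := by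
  obtain ⟨e, h1, h2, h3⟩ := h
  obtain ⟨f, k1, k2, k3⟩ := h'
  exact ⟨e.trans f, fun s t u hu => k1 _ _ _ (h1 _ _ _ hu), fun s t u hu => k2 _ _ _ (h2 _ _ _ hu),
    fun s u hu => k3 _ _ (h3 _ _ hu)⟩

/-- The isomorphism relation on Boolean algebras of sets of reals. -/
def isoSetoid : Setoid {B : Set (Set ℝ) // IsSetAlgebra B} where
  r B C := Isomorphic B.1 C.1
  iseqv :=
    { refl := fun B => Isomorphic.refl B.1
      symm := fun {B _} h => Isomorphic.symm B.2 h
      trans := fun h h' => Isomorphic.trans h h' }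

/-- An isomorphism between two families with all singletons and the empty set maps singletons
to singletons. -/
theorem singleton_image {B C : Set (Set ℝ)} (hB : ∀ x : ℝ, ({x} : Set ℝ) ∈ B)
    (hB0 : ∅ ∈ B) (hC : ∀ x : ℝ, ({x} : Set ℝ) ∈ C) (hC0 : ∅ ∈ C) (e : B ≃ C)
    (he : ∀ s t : B, (s : Set ℝ) ⊆ t ↔ (e s : Set ℝ) ⊆ e t) (x : ℝ) :
    ∃ y : ℝ, (e ⟨{x}, hB x⟩ : Set ℝ) = {y} := by
  have he0 : (e ⟨∅, hB0⟩ : Set ℝ) = ∅ := by
    have h := (he ⟨∅, hB0⟩ (e.symm ⟨∅, hC0⟩)).1 (Set.empty_subset _)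
    rw [e.apply_symm_apply] at h
    exact Set.subset_empty_iff.1 h
  have hne : (e ⟨{x}, hB x⟩ : Set ℝ).Nonempty := by
    rw [Set.nonempty_iff_ne_empty]
    intro h
    have h' : e ⟨{x}, hB x⟩ = e ⟨∅, hB0⟩ := Subtype.ext (h.trans he0.symm)
    have h'' := congrArg Subtype.val (e.injective h')
    exact Set.singleton_ne_empty x h''
  obtain ⟨y, hy⟩ := hne
  refine ⟨y, ?_⟩
  have hsub : ((e.symm ⟨{y}, hC y⟩ : B) : Set ℝ) ⊆ {x} := by
    have := (he (e.symm ⟨{y}, hC y⟩) ⟨{x}, hB x⟩).2 (by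
      rw [e.apply_symm_apply]
      exact Set.singleton_subset_iff.2 hy)
    exact this
  rcases Set.subset_singleton_iff_eq.1 hsub with h | h
  · exfalso
    have h' : e.symm ⟨{y}, hC y⟩ = ⟨∅, hB0⟩ := Subtype.ext h
    have h'' : (⟨{y}, hC y⟩ : C) = e ⟨∅, hB0⟩ := by rw [← h', e.apply_symm_apply]
    have h3 := congrArg Subtype.val h''
    exact Set.singleton_ne_empty y (h3.trans he0)
  · have h' : e.symm ⟨{y}, hC y⟩ = ⟨{x}, hB x⟩ := Subtype.ext h
    rw [← h', e.apply_symm_apply]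

/-- An isomorphism between two algebras that contain all singletons is induced by a
point map. -/
theorem exists_point_map {B C : Set (Set ℝ)} (hB : ∀ x : ℝ, ({x} : Set ℝ) ∈ B)
    (hBa : IsSetAlgebra B) (hC : ∀ x : ℝ, ({x} : Set ℝ) ∈ C) (hCa : IsSetAlgebra C)
    (h : Isomorphic B C) : ∃ p : ℝ → ℝ, C = (fun s => p '' s) '' B := by
  obtain ⟨e, h1, -, -⟩ := h
  have he : ∀ s t : B, (s : Set ℝ) ⊆ t ↔ (e s : Set ℝ) ⊆ e t := by
    intro s t
    constructor
    · intro hst
      have h := h1 s t t (Set.union_eq_self_of_subset_left hst).symm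
      rw [h]
      exact Set.subset_union_left
    · intro hst
      have h := h1 s t ⟨_, hBa.union_mem _ s.2 _ t.2⟩ rfl
      rw [Set.union_eq_self_of_subset_left hst] at h
      have h' := congrArg Subtype.val (e.injective (Subtype.ext h))
      rw [← h']
      exact Set.subset_union_left
  have he' : ∀ s t : C, (s : Set ℝ) ⊆ t ↔ (e.symm s : Set ℝ) ⊆ e.symm t := by
    intro s t
    rw [he (e.symm s) (e.symm t), e.apply_symm_apply, e.apply_symm_apply]
  choose p hp using singleton_image hB hBa.empty_mem hC hCa.empty_mem e he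
  choose q hq using singleton_image hC hCa.empty_mem hB hBa.empty_mem e.symm he'
  refine ⟨p, ?_⟩
  have key : ∀ s : B, (e s : Set ℝ) = p '' s := by
    intro s
    ext y
    constructor
    · intro hy
      have h2 := (he' ⟨{y}, hC y⟩ (e s)).1 (Set.singleton_subset_iff.2 hy)
      rw [hq y, e.symm_apply_apply, Set.singleton_subset_iff] at h2
      refine ⟨q y, h2, ?_⟩
      have h3 : e.symm ⟨{y}, hC y⟩ = ⟨{q y}, hB (q y)⟩ := Subtype.ext (hq y)
      have h4 : (⟨{y}, hC y⟩ : C) = e ⟨{q y}, hB (q y)⟩ := by rw [← h3, e.apply_symm_apply]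
      have h5 := congrArg Subtype.val h4
      rw [hp (q y)] at h5
      exact (Set.singleton_injective h5).symm
    · rintro ⟨x, hx, rfl⟩
      have h2 := (he ⟨{x}, hB x⟩ s).1 (Set.singleton_subset_iff.2 hx)
      rw [hp x, Set.singleton_subset_iff] at h2
      exact h2
  ext c
  constructor
  · intro hc
    refine ⟨(e.symm ⟨c, hc⟩ : B), (e.symm ⟨c, hc⟩).2, ?_⟩
    have h2 := key (e.symm ⟨c, hc⟩)
    rw [e.apply_symm_apply] at h2
    exact h2.symm
  · rintro ⟨s, hs, rfl⟩
    have h2 := key ⟨s, hs⟩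
    show p '' s ∈ C
    rw [← h2]
    exact (e ⟨s, hs⟩).2

/-- The Fichtenholz-Kantorovich-Hausdorff independent family, in the form needed here. -/
theorem exists_independent : ∃ J : Set ℝ → Set ℝ, ∀ T : Set (Set ℝ), T.Finite → ∀ A ∉ T,
    {r | (∀ A' ∈ T, r ∈ J A') ∧ r ∈ J A}.Infinite ∧
    {r | (∀ A' ∈ T, r ∈ J A') ∧ r ∉ J A}.Infinite := by
  classical
  have hcard : #ℝ = #((Finset ℝ × Finset (Finset ℝ)) × ℕ) := by
    simp
  obtain ⟨e⟩ := Cardinal.eq.1 hcard
  refine ⟨fun A => {r | (e r).1.1.filter (· ∈ A) ∈ (e r).1.2}, ?_⟩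
  intro T hT A hA
  -- a finite set separating `A` from the members of `T`
  have hsep : ∀ A' : Set ℝ, ∃ x : ℝ, A' ∈ T → ¬ (x ∈ A ↔ x ∈ A') := by
    intro A'
    by_contra hcon
    push Not at hcon
    have hA' := (hcon 0).1
    apply hA
    have : A = A' := by
      ext x
      exact (hcon x).2
    rw [this]
    exact hA'
  choose x hx using hsep
  set F : Finset ℝ := hT.toFinset.image x with hF
  set G : Finset (Finset ℝ) := hT.toFinset.image (fun A' => F.filter (· ∈ A')) with hG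
  have hFA : F.filter (· ∈ A) ∉ G := by
    intro hmem
    rw [hG, Finset.mem_image] at hmem
    obtain ⟨A', hA', heq⟩ := hmem
    rw [Set.Finite.mem_toFinset] at hA'
    have hxF : x A' ∈ F := by
      rw [hF, Finset.mem_image]
      exact ⟨A', by rwa [Set.Finite.mem_toFinset], rfl⟩
    apply hx A' hA'
    have h1 : x A' ∈ F.filter (· ∈ A') ↔ x A' ∈ F.filter (· ∈ A) := by rw [heq]
    rw [Finset.mem_filter, Finset.mem_filter] at h1
    constructor
    · intro h
      exact (h1.2 ⟨hxF, h⟩).2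
    · intro h
      exact (h1.1 ⟨hxF, h⟩).2
  have hGT : ∀ A' ∈ T, F.filter (· ∈ A') ∈ G := by
    intro A' hA'
    rw [hG, Finset.mem_image]
    exact ⟨A', by rwa [Set.Finite.mem_toFinset], rfl⟩
  constructor
  · apply Set.infinite_of_injective_forall_mem
      (f := fun n : ℕ => e.symm ((F, insert (F.filter (· ∈ A)) G), n))
    · intro m n hmn
      have := e.symm.injective hmn
      exact (Prod.ext_iff.1 this).2
    · intro n
      simp only [Set.mem_ofPred_eq, Equiv.apply_symm_apply]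
      exact ⟨fun A' hA' => Finset.mem_insert_of_mem (hGT A' hA'), Finset.mem_insert_self _ _⟩
  · apply Set.infinite_of_injective_forall_mem
      (f := fun n : ℕ => e.symm ((F, G), n))
    · intro m n hmn
      have := e.symm.injective hmn
      exact (Prod.ext_iff.1 this).2
    · intro n
      simp only [Set.mem_ofPred_eq, Equiv.apply_symm_apply]
      exact ⟨fun A' hA' => hGT A' hA', hFA⟩

/-- The algebra generated by the finite sets and the sets `J A` for `A ∈ S`. -/
def alg (J : Set ℝ → Set ℝ) (S : Set (Set ℝ)) : Set (Set ℝ) :=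
  {Z | ∃ T : Set (Set ℝ), T.Finite ∧ T ⊆ S ∧ ∃ E : Set ℝ, E.Finite ∧
    ∀ x y, x ∉ E → y ∉ E → (∀ A ∈ T, (x ∈ J A ↔ y ∈ J A)) → (x ∈ Z ↔ y ∈ Z)}

theorem alg_isSetAlgebra (J : Set ℝ → Set ℝ) (S : Set (Set ℝ)) : IsSetAlgebra (alg J S) where
  empty_mem := ⟨∅, Set.finite_empty, Set.empty_subset _, ∅, Set.finite_empty,
    fun _ _ _ _ _ => Iff.rfl⟩
  univ_mem := ⟨∅, Set.finite_empty, Set.empty_subset _, ∅, Set.finite_empty,
    fun _ _ _ _ _ => by simp⟩
  union_mem := by
    rintro s ⟨T, hT, hTS, E, hE, h⟩ t ⟨T', hT', hTS', E', hE', h'⟩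
    refine ⟨T ∪ T', hT.union hT', Set.union_subset hTS hTS', E ∪ E', hE.union hE', ?_⟩
    intro x y hx hy hxy
    have h1 := h x y (fun hh => hx (Or.inl hh)) (fun hh => hy (Or.inl hh))
      (fun A hA => hxy A (Or.inl hA))
    have h2 := h' x y (fun hh => hx (Or.inr hh)) (fun hh => hy (Or.inr hh))
      (fun A hA => hxy A (Or.inr hA))
    rw [Set.mem_union, Set.mem_union, h1, h2]
  compl_mem := by
    rintro s ⟨T, hT, hTS, E, hE, h⟩
    refine ⟨T, hT, hTS, E, hE, ?_⟩
    intro x y hx hy hxy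
    rw [Set.mem_compl_iff, Set.mem_compl_iff, h x y hx hy hxy]

theorem singleton_mem_alg (J : Set ℝ → Set ℝ) (S : Set (Set ℝ)) (x : ℝ) :
    ({x} : Set ℝ) ∈ alg J S := by
  refine ⟨∅, Set.finite_empty, Set.empty_subset _, {x}, Set.finite_singleton x, ?_⟩
  intro a b ha hb _
  exact ⟨fun h => absurd h ha, fun h => absurd h hb⟩

theorem alg_injective {J : Set ℝ → Set ℝ}
    (hJ : ∀ T : Set (Set ℝ), T.Finite → ∀ A ∉ T,
      {r | (∀ A' ∈ T, r ∈ J A') ∧ r ∈ J A}.Infinite ∧
      {r | (∀ A' ∈ T, r ∈ J A') ∧ r ∉ J A}.Infinite) :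
    Function.Injective (alg J) := by
  have key : ∀ S : Set (Set ℝ), ∀ A : Set ℝ, J A ∈ alg J S ↔ A ∈ S := by
    intro S A
    constructor
    · rintro ⟨T, hT, hTS, E, hE, h⟩
      by_contra hA
      obtain ⟨h1, h2⟩ := hJ T hT A (fun hh => hA (hTS hh))
      obtain ⟨x, hx, hxE⟩ := (h1.sdiff hE).nonempty
      obtain ⟨y, hy, hyE⟩ := (h2.sdiff hE).nonempty
      have := h x y hxE hyE (fun A' hA' => ⟨fun _ => hy.1 A' hA', fun _ => hx.1 A' hA'⟩)
      exact hy.2 (this.1 hx.2)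
    · intro hA
      exact ⟨{A}, Set.finite_singleton A, Set.singleton_subset_iff.2 hA, ∅, Set.finite_empty,
        fun x y _ _ hxy => hxy A rfl⟩
  intro S S' hSS
  ext A
  rw [← key S A, ← key S' A, hSS]

/-- **The number of isomorphism types of Boolean algebras of sets of reals is `2 ^ 2 ^ 𝔠`**,
the maximum possible value (in ZFC, no extra hypothesis). -/
theorem result : #(Quotient isoSetoid) = 2 ^ (2 ^ 𝔠 : Cardinal.{0}) := by
  have hPP : #(Set (Set ℝ)) = 2 ^ (2 ^ 𝔠 : Cardinal.{0}) := by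
    rw [Cardinal.mk_set, Cardinal.mk_set, Cardinal.mk_real]
  apply le_antisymm
  · calc #(Quotient isoSetoid) ≤ #{B : Set (Set ℝ) // IsSetAlgebra B} := Cardinal.mk_quotient_le
      _ ≤ #(Set (Set ℝ)) := Cardinal.mk_subtype_le _
      _ = _ := hPP
  · obtain ⟨J, hJ⟩ := exists_independent
    have hinj := alg_injective hJ
    let Φ : Set (Set ℝ) → Quotient isoSetoid :=
      fun S => Quotient.mk isoSetoid ⟨alg J S, alg_isSetAlgebra J S⟩
    have hfib : ∀ q : Quotient isoSetoid, #{S // Φ S = q} ≤ 2 ^ 𝔠 := by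
      intro q
      by_cases hq : ∃ S, Φ S = q
      · obtain ⟨S₀, rfl⟩ := hq
        have hmap : ∀ S : {S // Φ S = Φ S₀}, ∃ p : ℝ → ℝ,
            alg J S.1 = (fun s => p '' s) '' alg J S₀ := by
          intro S
          have h1 : Isomorphic (alg J S₀) (alg J S.1) :=
            Quotient.exact (s := isoSetoid) S.2.symm
          exact exists_point_map (singleton_mem_alg J S₀) (alg_isSetAlgebra J S₀)
            (singleton_mem_alg J S.1) (alg_isSetAlgebra J S.1) h1
        choose p hp using hmap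
        have hpinj : Function.Injective p := by
          intro S S' hSS
          apply Subtype.ext
          apply hinj
          rw [hp S, hp S', hSS]
        calc #{S // Φ S = Φ S₀} ≤ #(ℝ → ℝ) := Cardinal.mk_le_of_injective hpinj
          _ = 2 ^ 𝔠 := by
            rw [← Cardinal.power_def, Cardinal.mk_real,
              Cardinal.power_self_eq Cardinal.aleph0_le_continuum]
      · have : IsEmpty {S // Φ S = q} := ⟨fun S => hq ⟨S.1, S.2⟩⟩
        rw [Cardinal.mk_eq_zero]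
        exact zero_le
    by_contra hlt
    rw [not_le] at hlt
    have h1 : #(Set (Set ℝ)) ≤ #(Quotient isoSetoid) * 2 ^ 𝔠 := by
      rw [← Cardinal.mk_congr (Equiv.sigmaFiberEquiv Φ), Cardinal.mk_sigma]
      calc Cardinal.sum (fun q => #{S // Φ S = q})
          ≤ Cardinal.sum (fun _ : Quotient isoSetoid => 2 ^ 𝔠) := Cardinal.sum_le_sum _ _ hfib
        _ = #(Quotient isoSetoid) * 2 ^ 𝔠 := by simp
    rw [hPP] at h1
    have h2 : (2 ^ 𝔠 : Cardinal.{0}) < 2 ^ (2 ^ 𝔠 : Cardinal.{0}) := Cardinal.cantor _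
    have h3 : (ℵ₀ : Cardinal.{0}) ≤ 2 ^ (2 ^ 𝔠 : Cardinal.{0}) :=
      (Cardinal.aleph0_le_continuum.trans (Cardinal.cantor _).le).trans h2.le
    exact absurd h1 (not_le.2 (Cardinal.mul_lt_of_lt h3 hlt h2))

end Pool.Agent.Results.MP_4ec73f_lc.NumIsoTypes
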